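import Pool.Agent.Lib.MP_8b87c2_co.Main

/-!
# MP_8b87c2_co: the number of incongruent extremal sets for the unit distance problem, n ≤ 12

`N(n)` = number of congruence classes of `n`-point sets of the plane with the largest number of
unit distances. We prove `N(n) = 1` for `n = 1, 2, 3, 4, 5, 7`, `N(n) = ∞` for
`n = 6, 8, 9, 10, 11, 12`, and two general sufficient conditions for `N(n) = ∞`.
-/

set_option autoImplicit false
open Classical

namespace Pool.Agent.Results.MP_8b87c2_co.UpToTwelve

open Pool.Agent.Lib.MP8b87c2

/-- (1) `N(n) = 1` for `n = 1, 2, 3, 4, 5, 7`; (2) `N(n)` is infinite for `n = 6, 8, 9, 10, 11, 12`;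
(3) for every `n`: if some extremal `n`-point set is `{x i + y i}` with neither `x` nor `y`
constant and with `x i = x j` or `y i = y j` for any two of its points at distance 1, then `N(n)`
is infinite; (4) for every `n`: if the unit distance graph of some extremal `n`-point set
becomes disconnected when one point is removed, then `N(n)` is infinite. -/
theorem result :
    (∀ n ∈ ({1, 2, 3, 4, 5, 7} : Set ℕ), NOne (EuclideanSpace ℝ (Fin 2)) n) ∧
    (∀ n ∈ ({6, 8, 9, 10, 11, 12} : Set ℕ), NInfinite (EuclideanSpace ℝ (Fin 2)) n) ∧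
    (∀ (n : ℕ) (x y : Fin n → EuclideanSpace ℝ (Fin 2)),
      Extremal n (Finset.univ.image (fun i => x i + y i)) →
      (∀ i j, dist (x i + y i) (x j + y j) = 1 → x i = x j ∨ y i = y j) →
      (¬ ∀ i j, x i = x j) → (¬ ∀ i j, y i = y j) →
      NInfinite (EuclideanSpace ℝ (Fin 2)) n) ∧
    (∀ (n : ℕ) (A B C : Finset (EuclideanSpace ℝ (Fin 2))) (c : EuclideanSpace ℝ (Fin 2)),
      Extremal n A → c ∈ A → A.erase c = B ∪ C → Disjoint B C → B.Nonempty → C.Nonempty →
      (∀ b ∈ B, ∀ z ∈ C, dist b z ≠ 1) →
      NInfinite (EuclideanSpace ℝ (Fin 2)) n) := by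
  refine ⟨?_, ?_, ?_, ?_⟩
  · intro n hn
    simp only [Set.mem_insert_iff, Set.mem_singleton_iff] at hn
    rcases hn with rfl | rfl | rfl | rfl | rfl | rfl
    · exact none_transport eV.toIsometryEquiv _ none1
    · exact none_transport eV.toIsometryEquiv _ none2
    · exact none_transport eV.toIsometryEquiv _ none3
    · exact none_transport eV.toIsometryEquiv _ none4
    · exact none_transport eV.toIsometryEquiv _ none5
    · exact none_transport eV.toIsometryEquiv _ none7
  · intro n hn
    simp only [Set.mem_insert_iff, Set.mem_singleton_iff] at hn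
    rcases hn with rfl | rfl | rfl | rfl | rfl | rfl
    · exact ninf_transport eV.toIsometryEquiv _ inf6
    · exact ninf_transport eV.toIsometryEquiv _ inf8
    · exact ninf_transport eV.toIsometryEquiv _ inf9
    · exact ninf_transport eV.toIsometryEquiv _ inf10
    · exact ninf_transport eV.toIsometryEquiv _ inf11
    · exact ninf_transport eV.toIsometryEquiv _ inf12
  · intro n x y hA h hx hy
    exact split_crit_V n x y hA h hx hy
  · intro n A B C c hA hc hU hBC hB hC hd
    exact cut_crit_V n A hA c hc B C hB hC hBC hU hd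

end Pool.Agent.Results.MP_8b87c2_co.UpToTwelve
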